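import Mathlib
import Pool.Agent.R881.FSym

/-!
MP_b73301_gt, Q1 (negative answer): the set of elements with at most two elements in the double
centralizer need not be closed in the semi-Zariski topology.
-/

open Pool.Agent.R881.SemiZariski

namespace Pool.Agent.Results.MP_b73301_gt.BoundedNotClosed

/-- **Q1 of MP_b73301_gt, negated form.** There are a group `G` with finite double centralizers
and `n` (here `n = 2`) such that `G_{≤ n}` is not closed in the semi-Zariski topology. -/
theorem result : ∃ (G : Type) (_ : Group G), FiniteDoubleCentralizers G ∧
    ¬ @IsClosed G (semiZariski G) (centLE G 2) :=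
  ⟨Pool.Agent.R881.FSym.FSym, inferInstance, Pool.Agent.R881.FSym.fdc,
    Pool.Agent.R881.FSym.not_closed⟩

end Pool.Agent.Results.MP_b73301_gt.BoundedNotClosed
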