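import Mathlib
import Pool.Agent.R881.Heis

/-!
MP_b73301_gt, Q2 (negative answer): the set of elements with at most four elements in the double
centralizer need not be `σ`-discrete.
-/

open Pool.Agent.R881.SemiZariski

namespace Pool.Agent.Results.MP_b73301_gt.BoundedNotSigma

/-- **Q2 of MP_b73301_gt, negated form.** There are a group `G` with finite double centralizers
and `n` such that `G_{≤ n}` is not `σ`-discrete in the semi-Zariski topology. In the example
`n = 4` and `G_{≤ 4}` is the whole group. -/
theorem result : ∃ (G : Type) (_ : Group G), FiniteDoubleCentralizers G ∧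
    centLE G 4 = Set.univ ∧ ¬ SigmaDiscrete (semiZariski G) (centLE G 4) :=
  ⟨Pool.Agent.R881.Heis.G, inferInstance, Pool.Agent.R881.Heis.fdc,
    Pool.Agent.R881.Heis.centLE_four, by
      rw [Pool.Agent.R881.Heis.centLE_four]
      exact Pool.Agent.R881.Heis.not_sigmaDiscrete⟩

end Pool.Agent.Results.MP_b73301_gt.BoundedNotSigma
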